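import Pool.Agent.H37.CNY.Stmts

/-!
# Row INC: from a subgroup with a linear character to `I`
-/

set_option autoImplicit false

namespace Pool.CND

open Finset

/-- row INC -/
theorem inc_thm (hM : S_MAX) (hC : S_CMB) (hHBP : S_HBP) (hUMW : S_UMW) (hHAC : S_HAC) :
    S_INC := by
  intro p k L G _ _ _ _ _ P ρ W I H d l z hp hch hinj hW hIW hH hn hz hzc hbz hc hl
  have hUW : UM (fun g => P.b (ρ g)) W := hUMW k L G P ρ W hinj hW
  have hHW : HB p (fun g => P.b (ρ g)) W := hHBP p k L G P ρ W hp hch hinj hW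
  have hz1 : z ≠ 1 := fun h => hzc (h ▸ Subgroup.one_mem _)
  clear hUMW hHBP
  induction d generalizing I with
  | zero =>
    have hIA : H = I := by
      apply Subgroup.eq_of_le_of_card_ge hH
      rw [hc, pow_zero, one_mul]
    subst hIA
    obtain ⟨y, hy⟩ := hHAC p k L G P ρ W H l z hp hch hinj hW hIW hz hzc hbz hl
    exact ⟨y, by rw [pow_zero, one_mul, hy]⟩
  | succ d ih =>
    have hApos : 0 < Nat.card H := Nat.card_pos
    have hne : H ≠ I := by
      intro h
      rw [← h] at hc
      have h1 : 1 < p ^ (d + 1) := Nat.one_lt_pow (by omega) hp.one_lt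
      nlinarith
    obtain ⟨N, hAN, hNI, hcN, hnorm⟩ := hM p G I H hp hn hH hne
    have hcard : Nat.card N = p ^ d * Nat.card H := by
      have h1 : p * Nat.card N = p * (p ^ d * Nat.card H) := by
        rw [← hcN, hc, pow_succ]
        ring
      exact Nat.eq_of_mul_eq_mul_left hp.pos h1
    obtain ⟨B, -, hBs⟩ := hHW N I hNI hIW hcN hnorm
    have hNn : ∃ n : ℕ, Nat.card N = p ^ n := by
      obtain ⟨n, hn⟩ := hn
      obtain ⟨m, -, hm⟩ := (Nat.dvd_prime_pow hp).1 (show Nat.card N ∣ p ^ n from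
        ⟨p, by rw [← hn, hcN, mul_comm]⟩)
      exact ⟨m, hm⟩
    have hUI : UM (fun g => P.b (ρ g)) I :=
      ⟨fun g hg => hUW.pos g (hIW hg), fun g hg => hUW.inv g (hIW hg),
        fun g hg g' hg' => hUW.mul g (hIW hg) g' (hIW hg')⟩
    rcases (hC p G _ N I B l hp hUI hNI hcN hBs hl).1 with h | ⟨l', hl', h⟩
    · exact ⟨(p : ℤ) ^ (d + 1) * B, by rw [h]; push_cast; ring⟩
    · have hll : l' = l := by
        apply le_antisymm
        · obtain ⟨g, hg, hg1, hgb⟩ := hl'.mem
          rw [← hgb]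
          exact hl.le g (hNI hg) hg1
        · have := hl'.le z (hAN hz) hz1
          simp only [hbz] at this
          exact this
      subst hll
      obtain ⟨y, hy⟩ := ih N (hNI.trans hIW) hAN hNn hcard hl'
      refine ⟨y + (p : ℤ) ^ d * ((p : ℤ) - 1) * B, ?_⟩
      push_cast
      rw [← hy, pow_succ, mul_assoc, h]
      ring

end Pool.CND
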