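import Pool.Agent.H90.CNY.Stmts

/-!
# Row YCR: which powers centralise the last ramification group
-/

set_option autoImplicit false

namespace Pool.CND

/-- row YCR -/
theorem ycr_thm (hYCC : S_YCC) : S_YCR := by
  intro p k G _ _ _ W I C ζ θ t n g0 hp hchar hCW hWI hC hζ hθ hg0 hj hn
  obtain ⟨-, hc⟩ := hYCC p k G W I C ζ θ t hp hchar hCW hWI hζ hθ
  obtain ⟨w0, hw0, hw01⟩ : ∃ w ∈ C, w ≠ 1 := by
    by_contra hcon
    push Not at hcon
    exact hC ((Subgroup.eq_bot_iff_forall C).mpr hcon)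
  refine ⟨fun r => ⟨fun h => ?_, fun h g hg w hw => ?_⟩, ?_, ?_⟩
  · have h1 := (hc g0 hg0 w0 hw0 r).mp (h g0 hg0 w0 hw0)
    exact (hn _).mp (h1.resolve_left hw01)
  · refine (hc g hg w hw r).mpr (Or.inr ?_)
    obtain ⟨j, hj2⟩ := hj g hg
    rw [hj2, ← pow_mul, mul_comm, pow_mul, (hn _).mpr h, one_pow]
  · rintro g hg r ⟨w, hw, hw1, hw2⟩ w' hw'
    exact (hc g hg w' hw' r).mpr (Or.inr (((hc g hg w hw r).mp hw2).resolve_left hw1))
  · intro g hg w hw
    have h := (hc g (hWI hg) w hw 1).mpr (Or.inr (by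
      rw [(hζ.ker g (hWI hg)).mpr hg, one_pow]))
    rwa [pow_one] at h

end Pool.CND
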